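import Pool.Agent.Helper14.WK.StA

/-!
# Project WK (MP_3c9520_nt), module KMod: the modular transformation law in coordinates
-/

set_option autoImplicit false

open UpperHalfPlane CongruenceSubgroup
open scoped MatrixGroups

namespace Pool.Agent.Helper32.WK

open Pool.Agent.Helper14.WK
open Pool.Agent.Helper14.CV (G0)

/-- MODULE KMod. -/
theorem hKMod : SKMod := by
  intro N _ A f a b c d h1 hc z hz
  let γ : SL(2, ℤ) := ⟨!![a, b; c, d], by rw [Matrix.det_fin_two_of]; exact h1⟩
  let τ : ℍ := ⟨z, hz⟩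
  have hγ : γ ∈ Gamma0 N := by
    rw [Gamma0_mem]
    exact (ZMod.intCast_zmod_eq_zero_iff_dvd _ _).2 hc
  have h2 := SlashInvariantForm.slash_action_eqn_SL'' f hγ τ
  have h3 : ((γ • τ : ℍ) : ℂ) = (a * z + b) / (c * z + d) := by
    rw [coe_specialLinearGroup_apply]
    simp [γ, τ]
  have h4 : denom γ τ = c * z + d := by
    simp [denom, γ, τ]
  have h5 : (c * z + d : ℂ) ^ (2 * (A : ℤ) + 2) = (c * z + d) ^ (2 * A + 2) := by
    have e : (2 * (A : ℤ) + 2) = ((2 * A + 2 : ℕ) : ℤ) := by push_cast; ring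
    rw [e, zpow_natCast]
  unfold fzK
  rw [← h3, ofComplex_apply, ofComplex_apply_of_im_pos hz, h2, h4, h5]

end Pool.Agent.Helper32.WK
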