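import Pool.Agent.Helper28.WK.StA

/-!
# Project WK (MP_3c9520_nt), module Lft: lifting symbols from `ZMod (2^M)` to the integers
-/

set_option autoImplicit false

namespace Pool.Agent.Helper32.WK

open Pool.Agent.Helper14.CV Pool.Agent.Helper28.WK

/-- the reduction modulo `2^M` -/
private def rd (M : ℕ) (G : ℤ → ℤ → ℤ) : ℤ → ℤ → ZMod (2 ^ M) :=
  fun p q => ((G p q : ℤ) : ZMod (2 ^ M))

private theorem rd_Sym {M r s : ℕ} {G : ℤ → ℤ → ℤ} (h : Sym r s G) : Sym r s (rd M G) := by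
  refine ⟨?_, ?_⟩
  · intro k p q hk hpq
    change ((G (k * p) (k * q) : ℤ) : ZMod (2 ^ M)) = ((G p q : ℤ) : ZMod (2 ^ M))
    rw [h.1 k p q hk hpq]
  · intro a b c d hdet hb hc
    obtain ⟨e, he⟩ := h.2 a b c d hdet hb hc
    refine ⟨(e : ZMod (2 ^ M)), ?_⟩
    intro p q hpq
    have h1 := he p q hpq
    have h2 : G (a * p + b * q) (c * p + d * q) = G p q + e := h1
    change ((G (a * p + b * q) (c * p + d * q) : ℤ) : ZMod (2 ^ M)) =
      ((G p q : ℤ) : ZMod (2 ^ M)) + e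
    rw [h2, Int.cast_add]

private theorem rd_edge {M q q' : ℕ} (μ : ℕ) (u1 u2 v1 v2 : ℤ) (G : ℤ → ℤ → ℤ)
    (x : ZMod q) (y : ZMod q') :
    edgeF μ u1 u2 v1 v2 (rd M G) x y = ((edgeF μ u1 u2 v1 v2 G x y : ℤ) : ZMod (2 ^ M)) := by
  unfold edgeF
  rw [Int.cast_sub]
  rfl

private theorem sub_edge {M q q' : ℕ} (μ : ℕ) (u1 u2 v1 v2 : ℤ) (G H : ℤ → ℤ → ZMod (2 ^ M))
    (x : ZMod q) (y : ZMod q') :
    edgeF μ u1 u2 v1 v2 (G + -H) x y = edgeF μ u1 u2 v1 v2 G x y - edgeF μ u1 u2 v1 v2 H x y := by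
  unfold edgeF
  simp only [Pi.add_apply, Pi.neg_apply]
  abel

/-- from level `(0, r + s)` to level `(r, s)` -/
private theorem sym_up {R : Type} [AddCommGroup R] {r s : ℕ} {g : ℤ → ℤ → R}
    (h : Sym 0 (r + s) g) : Sym r s (fun p q => g p (2 ^ r * q)) := by
  have hnz : ∀ {p q : ℤ}, (p ≠ 0 ∨ q ≠ 0) → (p ≠ 0 ∨ (2 : ℤ) ^ r * q ≠ 0) := by
    intro p q hpq
    rcases hpq with h0 | h0
    · exact Or.inl h0
    · exact Or.inr (mul_ne_zero (by positivity) h0)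
  refine ⟨?_, ?_⟩
  · intro k p q hk hpq
    have e := h.1 k p (2 ^ r * q) hk (hnz hpq)
    have e1 : (2 : ℤ) ^ r * (k * q) = k * (2 ^ r * q) := by ring
    change g (k * p) (2 ^ r * (k * q)) = g p (2 ^ r * q)
    rw [e1, e]
  · intro a b c d hdet hb hc
    obtain ⟨b', hb'⟩ := hb
    obtain ⟨c', hc'⟩ := hc
    obtain ⟨k, hk⟩ := h.2 a b' (2 ^ r * c) d (by rw [← hdet, hb']; ring) (by simp)
      ⟨c', by rw [hc', pow_add]; ring⟩
    refine ⟨k, ?_⟩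
    intro p q hpq
    have e := hk p (2 ^ r * q) (hnz hpq)
    change g (a * p + b * q) (2 ^ r * (c * p + d * q)) = g p (2 ^ r * q) + k
    have e' : g (a * p + b' * (2 ^ r * q)) (2 ^ r * c * p + d * (2 ^ r * q)) =
        g p (2 ^ r * q) + k := e
    have e1 : a * p + b * q = a * p + b' * (2 ^ r * q) := by rw [hb']; ring
    have e2 : (2 : ℤ) ^ r * (c * p + d * q) = 2 ^ r * c * p + d * (2 ^ r * q) := by ring
    rw [e1, e2, e']

/-- from level `(r, s)` to level `(0, r + s)` -/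
private theorem sym_down {R : Type} [AddCommGroup R] {r s : ℕ} {G : ℤ → ℤ → R}
    (h : Sym r s G) : Sym 0 (r + s) (fun p q => G (2 ^ r * p) q) := by
  have hnz : ∀ {p q : ℤ}, (p ≠ 0 ∨ q ≠ 0) → ((2 : ℤ) ^ r * p ≠ 0 ∨ q ≠ 0) := by
    intro p q hpq
    rcases hpq with h0 | h0
    · exact Or.inl (mul_ne_zero (by positivity) h0)
    · exact Or.inr h0
  refine ⟨?_, ?_⟩
  · intro k p q hk hpq
    have e := h.1 k (2 ^ r * p) q hk (hnz hpq)
    have e1 : (2 : ℤ) ^ r * (k * p) = k * (2 ^ r * p) := by ring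
    change G (2 ^ r * (k * p)) (k * q) = G (2 ^ r * p) q
    rw [e1, e]
  · intro a b c d hdet _ hc
    obtain ⟨c', hc'⟩ := hc
    obtain ⟨k, hk⟩ := h.2 a (2 ^ r * b) (2 ^ s * c') d
      (by rw [← hdet, hc', pow_add]; ring) (Dvd.intro _ rfl) (Dvd.intro _ rfl)
    refine ⟨k, ?_⟩
    intro p q hpq
    have e := hk (2 ^ r * p) q (hnz hpq)
    have e' : G (a * (2 ^ r * p) + 2 ^ r * b * q) (2 ^ s * c' * (2 ^ r * p) + d * q) =
        G (2 ^ r * p) q + k := e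
    change G (2 ^ r * (a * p + b * q)) (c * p + d * q) = G (2 ^ r * p) q + k
    have e1 : (2 : ℤ) ^ r * (a * p + b * q) = a * (2 ^ r * p) + 2 ^ r * b * q := by ring
    have e2 : c * p + d * q = 2 ^ s * c' * (2 ^ r * p) + d * q := by
      rw [hc', pow_add]
      ring
    rw [e1, e2, e']

/-- MODULE Lft. -/
theorem hLft : StLft := by
  intro hRel hEx hUni hLfm m M g hm hg
  obtain ⟨r, rfl⟩ : ∃ r, m = (r + 1) + 1 := ⟨m - 2, by omega⟩
  have hg1 : Sym (r + 1) 1 (fun p q => g p (2 ^ (r + 1) * q)) := sym_up hg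
  have h1 := hRel (ZMod (2 ^ M)) _ r 0 _ hg1
  obtain ⟨F1, F3, hF, hF1, hF3⟩ := hLfm r 0 M _ _ h1
  obtain ⟨G1, hG, hG1, hG3⟩ := hEx ℤ _ r 0 F1 F3 hF
  have h2 : Sym (r + 1) (0 + 1) (rd M G1 + -(fun p q => g p (2 ^ (r + 1) * q))) :=
    (rd_Sym hG).add hg1.neg
  have h3 : EqC (rd M G1 + -(fun p q => g p (2 ^ (r + 1) * q))) 0 := by
    refine hUni (ZMod (2 ^ M)) _ r 0 _ h2 ?_ ?_
    · intro x y
      rw [sub_edge, rd_edge, hG1, hF1, sub_self]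
    · intro x y
      rw [sub_edge, rd_edge, hG3, hF3, sub_self]
  refine ⟨fun p q => G1 (2 ^ (r + 1) * p) q, sym_down hG, ?_⟩
  obtain ⟨c, hc⟩ := h3
  refine ⟨c, fun p q hpq => ?_⟩
  have hnz : (2 : ℤ) ^ (r + 1) * p ≠ 0 ∨ q ≠ 0 := by
    rcases hpq with h0 | h0
    · exact Or.inl (mul_ne_zero (by positivity) h0)
    · exact Or.inr h0
  have h5 := hc (2 ^ (r + 1) * p) q hnz
  have h6 := hg.1 (2 ^ (r + 1)) p q (by positivity) hpq
  have h7 : ((G1 (2 ^ (r + 1) * p) q : ℤ) : ZMod (2 ^ M)) +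
      -(g (2 ^ (r + 1) * p) (2 ^ (r + 1) * q)) = 0 + c := h5
  rw [h6, zero_add] at h7
  change ((G1 (2 ^ (r + 1) * p) q : ℤ) : ZMod (2 ^ M)) = g p q + c
  rw [← h7]
  abel

end Pool.Agent.Helper32.WK
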